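import Pool.Agent.W_448na_h84.NaB

/-!
# MP_448cb3_co, case B: natural rows with at least four sites for the functional
`<-1, 9, 1, 4, 3, -1, 2, 13, 0>` (helper84)
-/

namespace Pool.Agent.GaussPoset.Wd

set_option linter.unusedSectionVars false

open Finset Win Win.I2 Win.Rc EK Win.Pn
open Pool.Agent.GaussPoset.Win.So (Z2s mem_Z2s)

universe u

variable {P : Type u} [Fintype P] [PartialOrder P] [DecidableEq P] {r j i : ℕ}
  {t : Tops P} {m : ℕ} {x : ℕ → P} {c : ℕ → ℤ} {β : ℤ}

/-- at most two elements below -/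
lemma kc_le (H : Gr P r) (z : P) : kc z ≤ 2 := by
  classical
  unfold kc
  have h1 : (ks z).card ≤ 2 := by
    refine (card_le_card (t := dc z) fun w hw => ?_).trans (dc_card_le H z)
    rw [mem_ks] at hw
    rw [mem_dc, ← mem_uc, hw]
    exact mem_singleton_self z
  exact_mod_cast h1

/-- the chains and the joins of a pendant -/
lemma NJ.ks_zs_le (h : NJ P r j) (hij : i + 1 = j) (p : P) :
    kc p + zc i (topOf : P → Tops P) p ≤ 2 := by
  classical
  subst hij
  have H := h.g.H
  have hd : Disjoint (ks p) (zs i (topOf : P → Tops P) p) := by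
    rw [Finset.disjoint_left]
    intro w hw1 hw2
    rw [mem_ks] at hw1
    obtain ⟨p1, p2, y, y', D, hu, hne⟩ := Z2s_pair H h.split (mem_zs.1 hw2).1
    rw [hw1] at hu
    have h1 := congrArg Finset.card hu
    rw [card_singleton, card_pair hne] at h1
    omega
  have h1 : (ks p).card + (zs i (topOf : P → Tops P) p).card ≤ 2 := by
    rw [← card_union_of_disjoint hd]
    refine (card_le_card (t := dc p) fun w hw => ?_).trans (dc_card_le H p)
    rw [mem_union] at hw
    rcases hw with hw | hw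
    · rw [mem_ks] at hw
      rw [mem_dc, ← mem_uc, hw]
      exact mem_singleton_self p
    · rw [mem_dc]
      exact mem_uc.1 (mem_zs.1 hw).2
  unfold kc zc
  exact_mod_cast h1

/-- the arithmetic of a pendant of a natural row -/
lemma nat_num {z k U n s : ℤ} (hz : 0 ≤ z) (hk : 0 ≤ k) (hU0 : 0 ≤ U) (hU : U ≤ 1)
    (hkz : k + z ≤ 2) (hn : n ≤ 4) (hs : s ≤ 2 * z) :
    0 ≤ 2 * ((k - U) ^ 2 - (k - U)) +
      (24 * z - 4 * z * (k + n) - 2 * s + 8 * z * (k - U) + 2 * (z * (z - 1))) := by
  have h1 : z ≤ 2 := by omega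
  have h2 : k ≤ 2 := by omega
  interval_cases z <;> interval_cases k <;> interval_cases U <;> omega

section big

variable (h : NJ P r j) (hij : i + 1 = j) (hi1 : 1 ≤ i) (B : RowB P j t m x c β)
include h hij hi1 B

/-- natural rows with at least four sites -/
theorem NJ.nat_big (hβ : β = 0) (hc : ∀ k, k < m → c k = 0) (h4 : 4 ≤ (st i (SS i t)).card) :
    0 ≤ 2 * own ⟨-1, 9, 1, 4, 3, -1, 2, 13, 0⟩ i j t +
      ∑ p ∈ (PD P i).filter (fun p => (topOf p : Tops P) = t),
        shr ⟨-1, 9, 1, 4, 3, -1, 2, 13, 0⟩ i p := by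
  classical
  have H := h.g.H
  have hn : NatT j (t : P) := RowB.nat_of h B hc hβ
  obtain ⟨lo, hi, e, C⟩ := Cp.comp_exists h.g.H t.2 h.g.hr h.g.good
  have hcard := h.card_SS (i := i) (by omega) C
  have hb : lo i + 3 ≤ hi i := by omega
  have o2 := EK.NJ.nat_own2s h (by omega) hn
  rw [h.cext_eq (i := j) (by omega) t] at o2
  have o5 := EK.NJ.n5_le h hij hi1 t
  have e2 : own2 ⟨-1, 9, 1, 4, 3, -1, 2, 13, 0⟩ j t = - Pn.F2 j t + 2 * Pn.F4 j t + 13 * Pn.F3 j t := by
    unfold own2
    ring
  have n1_0 : 0 ≤ n1 i (SS i t) := by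
    unfold n1
    exact Int.natCast_nonneg _
  have key : ∀ q, q ≤ m → (∀ z, z ∈ FL i (SS i t) ∨ z ∈ FU' i (SS i t) → sit i z = uc (x q)) →
      fa i (SS i t) ^ 2 - fa i (SS i t) ≤ own ⟨-1, 9, 1, 4, 3, -1, 2, 13, 0⟩ i j t := by
    intro q hq h0
    have o1 := h.own1_nat hij hi1 B ⟨-1, 9, 1, 4, 3, -1, 2, 13, 0⟩ h4 hc hq h0
    rw [own_eq, o1, e2]
    unfold n5
    simp only
    linarith
  rcases h.pd_nat hij hi1 C hb hn with hN | ⟨y, p, u, D, ly, hyt, np, nu, fu⟩
  · have f1 : FL i (SS i t) = ∅ := by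
      rw [eq_empty_iff_forall_notMem]
      intro w hw
      rw [mem_FL] at hw
      obtain ⟨hw1, z, hz1, hz2⟩ := hw
      have hzw : w ⋖ z := by rw [← mem_uc, hz2]; simp
      have hz : z ∈ SS i t := (h.part (i := i) (k := j + 1) (by omega) (by omega) t).up hw1 hzw
      exact (hN z hz).1 hz1
    have f2 : FU' i (SS i t) = ∅ := by
      rw [eq_empty_iff_forall_notMem]
      intro w hw
      rw [mem_FU'] at hw
      obtain ⟨hw1, z, hz1, hz2⟩ := hw
      have lz := (mem_PU.1 hz1).1
      have hzw : z ⋖ w := by rw [← mem_dc, hz2]; simp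
      have lw := lev_cov H hzw
      have hwt : w ≤ (t : P) := (h.mem (by omega) t (by omega)).1 hw1
      have hzS : z ∈ SS i t := (h.mem (by omega) t (by omega)).2 (hzw.le.trans hwt)
      exact (hN z hzS).2 hz1
    have k1 := key 0 (Nat.zero_le _) (by
      intro z hz
      rw [f1, f2] at hz
      simp at hz)
    have k2 : fa i (SS i t) = 0 := by
      unfold fa
      rw [f1, f2]
      simp
    have k3 : (PD P i).filter (fun p => (topOf p : Tops P) = t) = ∅ := by
      rw [eq_empty_iff_forall_notMem]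
      intro q hq
      rw [mem_filter] at hq
      obtain ⟨hq1, hq2⟩ := hq
      have lq := (mem_PD.1 hq1).1
      exact (hN q ((h.mem (by omega) t (by omega)).2 (hq2 ▸ le_topOf q))).1 hq1
    rw [k3, sum_empty]
    rw [k2] at k1
    linarith
  · obtain ⟨q, hq, rfl⟩ := B.row.surj y ly (by
      refine Subtype.ext ?_
      exact Hul.top_unique (h.nj (by omega)) (topOf y).2 t.2 (le_topOf y) hyt)
    have lp := (mem_PD.1 D.pd).1
    have lu := (mem_PU.1 D.pu).1
    have fl : FL i (SS i t) = ks p := by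
      ext w
      rw [mem_FL, mem_ks]
      constructor
      · rintro ⟨hw1, z, hz1, hz2⟩
        have hzw : w ⋖ z := by rw [← mem_uc, hz2]; simp
        have hz : z ∈ SS i t := (h.part (i := i) (k := j + 1) (by omega) (by omega) t).up hw1 hzw
        rw [hz2, D.low z hz hz1]
      · intro hw
        refine ⟨?_, p, D.pd, hw⟩
        have hwp : w ⋖ p := by rw [← mem_uc, hw]; simp
        have lw := lev_cov H hwp
        have hp := D.mp
        unfold SS at hp ⊢
        rw [mem_cext] at hp ⊢
        intro v hv hlv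
        refine hp v ?_ hlv
        rcases eq_or_lt_of_le hv with rfl | hv'
        · omega
        · obtain ⟨v', q1, q2⟩ := exists_covBy_le_of_lt hv'
          rw [← mem_uc, hw, mem_singleton] at q1
          rwa [← q1]
    have h0 : ∀ z, z ∈ FL i (SS i t) ∨ z ∈ FU' i (SS i t) → sit i z = uc (x q) := by
      intro z hz
      rcases hz with hz | hz
      · rw [fl, mem_ks] at hz
        rw [sit_FL H D.pd hz, ← D.sp, sit_low H (by omega)]
      · rw [mem_FU'] at hz
        obtain ⟨hw1, v, hz1, hz2⟩ := hz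
        have lz := (mem_PU.1 hz1).1
        have hzw : v ⋖ z := by rw [← mem_dc, hz2]; simp
        have lw := lev_cov H hzw
        have hwt : z ≤ (t : P) := (h.mem (by omega) t (by omega)).1 hw1
        have hzS : v ∈ SS i t := (h.mem (by omega) t (by omega)).2 (hzw.le.trans hwt)
        obtain rfl := D.upp v hzS hz1
        rw [sit_FU H D.pu hz2, ← D.su, sit_upp H (by omega)]
    have k1 := key q hq h0
    have k3 : (PD P i).filter (fun p => (topOf p : Tops P) = t) = {p} := by
      ext w
      rw [mem_filter, mem_singleton]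
      constructor
      · rintro ⟨hq1, hq2⟩
        have lq := (mem_PD.1 hq1).1
        exact D.low w ((h.mem (by omega) t (by omega)).2 (hq2 ▸ le_topOf w)) hq1
      · rintro rfl
        refine ⟨D.pd, ?_⟩
        have hwt : w ≤ (t : P) := (h.mem (by omega) t (by omega)).1 D.mp
        refine Subtype.ext ?_
        exact Hul.top_unique (h.nj (by omega)) (topOf w).2 t.2 (le_topOf w) hwt
    rw [k3, sum_singleton]
    have s1 := h.shr_row hij hi1 B ⟨-1, 9, 1, 4, 3, -1, 2, 13, 0⟩ h4 hq D.up D.pd
    have s2 : ∑ l ∈ (Ed x m).filter (fun l => l ≤ q + 1 ∧ q ≤ l + 2), c l = 0 := by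
      refine Finset.sum_eq_zero fun l hl => ?_
      rw [mem_filter, mem_Ed] at hl
      exact hc l hl.1.1
    have s3 : ((Et x m c).filter (fun l => l ≤ q + 1 ∧ q ≤ l + 2)) = ∅ := by
      rw [eq_empty_iff_forall_notMem]
      intro l hl
      rw [mem_filter, mem_Et, mem_Ed] at hl
      have h1 := hc l hl.1.1.1
      rw [hl.1.2] at h1
      exact one_ne_zero h1
    have s4 : ∑ z ∈ zs i (topOf : P → Tops P) p, kc z ≤ 2 * zc i (topOf : P → Tops P) p := by
      have h1 : ∑ z ∈ zs i (topOf : P → Tops P) p, kc z ≤ ∑ _z ∈ zs i (topOf : P → Tops P) p, 2 :=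
        Finset.sum_le_sum fun z _ => kc_le H z
      rw [sum_const, nsmul_eq_mul] at h1
      unfold zc
      linarith
    have s5 := h.ks_zs_le hij p
    have s6 : fa i (SS i t) = kc p - (FU' i (SS i t)).card := by
      unfold fa kc
      rw [fl]
    have s7 : nn i p ≤ 4 := by
      unfold nn
      have h1 : ((nLp i p).card : ℤ) ≤ 2 := by exact_mod_cast np
      have h2 : ((nUp i p).card : ℤ) ≤ 2 := by exact_mod_cast nu
      linarith
    have s8 : ((FU' i (SS i t)).card : ℤ) ≤ 1 := by exact_mod_cast fu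
    have s9 : 0 ≤ zc i (topOf : P → Tops P) p := by
      unfold zc
      exact Int.natCast_nonneg _
    have s10 : 0 ≤ kc p := by
      unfold kc
      exact Int.natCast_nonneg _
    have N := nat_num s9 s10 (Int.natCast_nonneg (FU' i (SS i t)).card) s8 s5 s7 s4
    rw [s1, s2, s3, card_empty]
    rw [← s6] at N
    push_cast
    linarith

end big

end Pool.Agent.GaussPoset.Wd
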