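import Pool.Agent.W_448nv_h97.NvB
import Pool.Agent.W_448win_h80.W1

/-!
# MP_448cb3_co, case B: the joins of a pendant and a three-site element inside a part (window `j - 1`)
are counted by `|Z4| - |T4|` at the window `j` (helper84)
-/

set_option autoImplicit false

namespace Pool.Agent.GaussPoset.EK

set_option linter.unusedSectionVars false

open Finset Win St Polynomial Wd Win.W4

universe u

variable {P : Type u} [Fintype P] [PartialOrder P] [DecidableEq P] {r i j : ℕ}

/-- the joins of a pendant and a three-site element inside a part, window `j - 1` -/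
lemma NJ.n5_le (h : NJ P r j) (hij : i + 1 = j) (hi1 : 1 ≤ i) (t : Tops P) :
    ((SO.N5f i (SS i t)).card : ℤ) ≤
      ((Z4 j (SS j t)).card : ℤ) - (T4 j (SS j t)).card := by
  classical
  have H := h.g.H
  have hSS : SS i t = SS j t := by
    rw [← h.cext_eq (i := i) (by omega) t, ← h.cext_eq (i := j) (by omega) t]
  rw [← W1.nfc_eq h hij hi1 t]
  have h1 : Rd.NfC i (SS i t) ⊆ Z4 j (SS j t) \ T4 j (SS j t) := by
    intro a ha
    rw [Rd.mem_NfC] at ha
    obtain ⟨z, z2, w, w2, y, S⟩ := ha
    obtain ⟨l1, l2, l3, l4, l5⟩ := S.lv H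
    have la : lev a = j + 2 := by
      have := lev_uc H (show z ∈ uc a by rw [S.ua]; simp)
      omega
    have hZL : a ∈ ZL j (SS j t) := by
      refine mem_ZL.2 ⟨by rw [← hSS]; exact S.mc, la, ?_⟩
      rw [up_two H la S.ua, S.uz, S.uz2]
      rw [show ({w, w2} ∪ {y} : Finset P) = {w, w2, y} by
        ext q
        simp only [mem_union, mem_insert, mem_singleton]
        tauto]
      exact card_eq_three.2 ⟨w, w2, y, S.ww, S.yw.symm, S.yw2.symm, rfl⟩
    rw [mem_sdiff]
    refine ⟨mem_Z4.2 (Or.inl hZL), fun hT => ?_⟩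
    rcases mem_T4.1 hT with ⟨-, h3⟩ | ⟨h3, -⟩
    · have := h3 z2 (by rw [S.ua]; simp)
      rw [S.uz2, card_singleton] at this
      omega
    · have := (mem_ZU.1 h3).2.1
      omega
  have h2 := card_le_card h1
  rw [card_sdiff_of_subset (T4_subset j (SS j t))] at h2
  have h3 := card_le_card (T4_subset j (SS j t))
  omega

end Pool.Agent.GaussPoset.EK
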