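import Pool.Agent.W_448na_h84.NaA
import Pool.Agent.W_448rc_h10.RcI
import Pool.Agent.W_448j6_h22.KbK

/-!
# MP_448cb3_co, case B: the pendant of a component with at least four sites at the window `j - 1`, in
coordinates; natural rows (helper84)
-/

namespace Pool.Agent.GaussPoset.Wd

set_option linter.unusedSectionVars false

open Finset Win Win.I2 Win.Rc EK Win.Pn

universe u

variable {P : Type u} [Fintype P] [PartialOrder P] [DecidableEq P] {r j i n : ℕ}
  {t : Tops P} {lo hi : ℕ → ℕ} {e : ℕ → ℕ → P} {m : ℕ} {x : ℕ → P} {c : ℕ → ℤ} {β : ℤ}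

/-- an element with two natural neighbours has no private child -/
lemma nat_two_nb (H : Gr P r) (hn : NatT j (t : P)) {y y1 y2 v1 v2 p : P} (ly : lev y = j)
    (ly1 : lev y1 = j) (ly2 : lev y2 = j) (hy : y ≤ (t : P)) (hy1 : y1 ≤ (t : P))
    (hy2 : y2 ≤ (t : P)) (n1 : y ≠ y1) (n2 : y ≠ y2) (n12 : y1 ≠ y2) (a1 : y ⋖ v1) (b1 : y1 ⋖ v1)
    (a2 : y ⋖ v2) (b2 : y2 ⋖ v2) (hp : uc p = {y}) : False := by
  classical
  have key : ∀ {y' v : P}, lev y' = j → y' ≤ (t : P) → y ≠ y' → y ⋖ v → y' ⋖ v →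
      ∃ z, z ⋖ y ∧ z ⋖ y' := by
    intro y' v l h1 h2 h3 h4
    have h5 : 1 ≤ ucv y y' := by
      rw [← card_uc_inter]
      exact card_pos.2 ⟨v, mem_inter.2 ⟨mem_uc.2 h3, mem_uc.2 h4⟩⟩
    rw [hn y y' ly l hy h1 h2, ← card_dc_inter] at h5
    obtain ⟨z, hz⟩ := card_pos.1 h5
    rw [mem_inter, mem_dc, mem_dc] at hz
    exact ⟨z, hz.1, hz.2⟩
  obtain ⟨z1, c1, d1⟩ := key ly1 hy1 n1 a1 b1
  obtain ⟨z2, c2, d2⟩ := key ly2 hy2 n2 a2 b2
  have hpy : p ⋖ y := by rw [← mem_uc, hp]; simp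
  have p1 : p ≠ z1 := by
    rintro rfl
    have h1 : y1 ∈ uc p := mem_uc.2 d1
    rw [hp, mem_singleton] at h1
    exact n1 h1.symm
  have p2 : p ≠ z2 := by
    rintro rfl
    have h1 : y2 ∈ uc p := mem_uc.2 d2
    rw [hp, mem_singleton] at h1
    exact n2 h1.symm
  have z12 : z1 ≠ z2 := by
    rintro rfl
    have h1 : ({y, y1, y2} : Finset P) ⊆ uc z1 := by
      intro q hq
      rw [mem_insert, mem_insert, mem_singleton] at hq
      rcases hq with rfl | rfl | rfl
      · exact mem_uc.2 c1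
      · exact mem_uc.2 d1
      · exact mem_uc.2 d2
    have h2 := card_le_card h1
    rw [card_eq_three.2 ⟨y, y1, y2, n1, n2, n12, rfl⟩] at h2
    have h3 := uc_card_le H z1
    omega
  have h1 : ({p, z1, z2} : Finset P) ⊆ dc y := by
    intro q hq
    rw [mem_insert, mem_insert, mem_singleton] at hq
    rcases hq with rfl | rfl | rfl
    · exact mem_dc.2 hpy
    · exact mem_dc.2 c1
    · exact mem_dc.2 c2
  have h2 := card_le_card h1
  rw [card_eq_three.2 ⟨p, z1, z2, p1, p2, z12, rfl⟩] at h2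
  have h3 := dc_card_le H y
  omega

/-- the pendant data in coordinates -/
structure PdC (i : ℕ) (t : Tops P) (lo hi : ℕ → ℕ) (e : ℕ → ℕ → P) (y p u : P) : Prop where
  mp : p ∈ SS i t
  pd : p ∈ PD P i
  pu : u ∈ PU P i
  up : uc p = {y}
  sp : sit i p = uc y
  su : sit i u = uc y
  low : ∀ q ∈ SS i t, q ∈ PD P i → q = p
  upp : ∀ q ∈ SS i t, q ∈ PU P i → q = u

section big

variable (h : NJ P r j) (hij : i + 1 = j) (hi1 : 1 ≤ i) (C : Cp.Comp j (t : P) lo hi e)
  (hb : lo i + 3 ≤ hi i)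
include h hij hi1 C hb

/-- no pendants, or one pendant below and one above, at the same end -/
theorem NJ.pd_coord : (∀ q ∈ SS i t, q ∉ PD P i ∧ q ∉ PU P i) ∨
    ∃ n, i = n + 2 ∧ ∃ y p u, PdC i t lo hi e y p u ∧
      ((lo (n + 1) = lo n + 1 ∧ lo (n + 2) = lo (n + 1) ∧ u = e n (lo n) ∧
        y = e (n + 3) (lo (n + 2) + 1) ∧
          uc y = {e (n + 2) (lo (n + 2)), e (n + 2) (lo (n + 2) + 1)}) ∨
      (hi (n + 1) = hi n ∧ hi (n + 2) = hi (n + 1) + 1 ∧ u = e n (hi n) ∧
        y = e (n + 3) (hi (n + 2)) ∧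
          uc y = {e (n + 2) (hi (n + 2) - 1), e (n + 2) (hi (n + 2))})) := by
  classical
  have H := h.g.H
  have W := C.toWin
  obtain ⟨psi, hM⟩ := good_mat h.g.H (h.g.good i (by omega))
  rcases h.dich hij hi1 C hb hM with hN | ⟨y, p, w, u, v, v', O⟩
  · exact Or.inl hN
  right
  have pD : p ∈ PD P i := by
    have l1 := O.F.ly
    have h1 : p ⋖ y := by rw [← mem_uc, O.F.up]; simp
    have l2 := lev_cov H h1
    rw [mem_PD]
    exact ⟨by omega, by rw [O.F.up, card_singleton], y, h1, by rw [O.F.uy, card_pair O.F.ne]⟩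
  have uU : u ∈ PU P i := by
    have l1 := O.F.lw
    have h1 : w ⋖ u := by rw [← mem_dc, O.F.du]; simp
    have l2 := lev_cov H h1
    rw [mem_PU]
    exact ⟨by omega, by rw [O.F.du, card_singleton], w, h1, by rw [O.F.dw, card_pair O.F.ne]⟩
  have lu := (mem_PU.1 uU).1
  have lp := (mem_PD.1 pD).1
  obtain ⟨n, rfl⟩ : ∃ n, i = n + 2 := ⟨lev u, by omega⟩
  obtain rfl : j = n + 3 := by omega
  have hut : u ≤ (t : P) := (h.mem (by omega) t (by omega)).1 O.mu
  have hyt : y ≤ (t : P) := (h.mem (by omega) t (by have := O.F.ly; omega)).1 O.my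
  have hsu : stD (n + 2) u = uc y := by
    rw [ClE_stD H (by omega) O.F.du, O.F.dw, O.F.uy]
  have e1 : sit (n + 2) p = uc y := by
    ext q
    rw [sit_low H (by omega), mem_sts_iff H lp, O.F.up]
    simp
  have e2 : sit (n + 2) u = uc y := by
    rw [sit_upp H (z := u) (by omega), hsu]
  refine ⟨n, rfl, y, p, u, ⟨O.mp, pD, uU, O.F.up, e1, e2, O.low, O.upp⟩, ?_⟩
  have ly := O.F.ly
  obtain ⟨a, a1, a2, rfl⟩ := W.surj (n + 3) le_rfl y (by omega) hyt
  obtain ⟨hw, hcase⟩ := W.PU_cases h.g t.2 (m := n) (by omega) uU hut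
  rw [hsu] at hcase
  have pos : ∀ b, lo (n + 2) ≤ b → b ≤ hi (n + 2) → e (n + 2) b ∈ uc (e (n + 3) a) →
      a = b ∨ a = b + 1 := by
    intro b b1 b2 hmem
    obtain ⟨b', c1, c2, c3, hbb⟩ := (W.uc_iff h.g t.2 (k := n + 2) (by omega) a1 a2).1
      (mem_uc.1 hmem)
    have : b' = b := by
      by_contra hne
      rcases Nat.lt_or_gt_of_ne hne with h1 | h1
      · exact W.inj (n + 2) (by omega) _ _ c1 h1 b2 hbb
      · exact W.inj (n + 2) (by omega) _ _ b1 h1 c2 hbb.symm
    omega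
  rcases hcase with ⟨k1, k2, k3, k4⟩ | ⟨k1, k2, k3, k4⟩
  · left
    have q1 := pos (lo (n + 2)) le_rfl (by omega) (by rw [k4]; simp)
    have q2 := pos (lo (n + 2) + 1) (by omega) (by omega) (by rw [k4]; simp)
    obtain rfl : a = lo (n + 2) + 1 := by omega
    exact ⟨k1, k2, k3, rfl, k4⟩
  · right
    have q1 := pos (hi (n + 2)) (by omega) le_rfl (by rw [k4]; simp)
    have q2 := pos (hi (n + 2) - 1) (by omega) (by omega) (by rw [k4]; simp)
    obtain rfl : a = hi (n + 2) := by omega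
    exact ⟨k1, k2, k3, rfl, k4⟩

end big

/-- the numbers of a pendant of a natural row -/
theorem NJ.pd_nat (h : NJ P r j) (hij : i + 1 = j) (hi1 : 1 ≤ i) (C : Cp.Comp j (t : P) lo hi e)
    (hb : lo i + 3 ≤ hi i) (hn : NatT j (t : P)) :
    (∀ q ∈ SS i t, q ∉ PD P i ∧ q ∉ PU P i) ∨
    ∃ y p u, PdC i t lo hi e y p u ∧ lev y = j ∧ y ≤ (t : P) ∧ (nLp i p).card ≤ 2 ∧
      (nUp i p).card ≤ 2 ∧ (FU' i (SS i t)).card ≤ 1 := by
  classical
  have H := h.g.H
  have W := C.toWin
  rcases h.pd_coord hij hi1 C hb with hN | ⟨n, rfl, y, p, u, D, hcase⟩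
  · exact Or.inl hN
  right
  obtain rfl : j = n + 3 := by omega
  have lp := (mem_PD.1 D.pd).1
  have lu := (mem_PU.1 D.pu).1
  have hpy : p ⋖ y := by rw [← mem_uc, D.up]; simp
  have ly : lev y = n + 3 := by have := lev_cov H hpy; omega
  have hyt : y ≤ (t : P) := by
    have h1 : y ∈ SS (n + 2) t := (h.part (i := n + 2) (k := n + 3 + 1) (by omega) (by omega) t).up
      D.mp hpy
    exact (h.mem (by omega) t (by omega)).1 h1
  refine ⟨y, p, u, D, ly, hyt, ?_⟩
  -- positions
  have eqe : ∀ k a b, k ≤ n + 3 → lo k ≤ a → a ≤ hi k → lo k ≤ b → b ≤ hi k → e k a = e k b →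
      a = b := by
    intro k a b hk a1 a2 b1 b2 hq
    by_contra hne
    rcases Nat.lt_or_gt_of_ne hne with h1 | h1
    · exact W.inj k hk _ _ a1 h1 b2 hq
    · exact W.inj k hk _ _ b1 h1 a2 hq.symm
  have s1 := W.lo_le (n + 2) (by omega)
  have s2 := W.lo_ge (n + 2) (by omega)
  have s3 := W.hi_le (n + 2) (by omega)
  have s4 := W.hi_ge (n + 2) (by omega)
  have r1 := W.lo_le (n + 1) (by omega)
  have r2 := W.lo_ge (n + 1) (by omega)
  have r3 := W.hi_le (n + 1) (by omega)
  have r4 := W.hi_ge (n + 1) (by omega)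
  have t1 := W.lo_le n (by omega)
  have t2 := W.lo_ge n (by omega)
  have t3 := W.hi_le n (by omega)
  have t4 := W.hi_ge n (by omega)
  simp only [show n + 1 + 1 = n + 2 from rfl, show n + 2 + 1 = n + 3 from rfl] at s1 s2 s3 s4 r1 r2 r3 r4
  -- lower near elements
  have low : ∀ w ∈ nLp (n + 2) p, ∃ a b, lo (n + 3) ≤ a ∧ a ≤ hi (n + 3) ∧ lo (n + 2) ≤ b ∧
      b ≤ hi (n + 2) ∧ (b = a ∨ b + 1 = a) ∧ w = e (n + 3) a ∧ e (n + 2) b ∈ uc y := by
    intro w hw
    rw [mem_nLp, D.sp, not_disjoint_iff] at hw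
    obtain ⟨lw, v, hv1, hv2⟩ := hw
    have lv := lev_uc H hv2
    have hvt : v ≤ (t : P) := by
      have h1 : v ∈ SS (n + 2) t := (h.part (i := n + 2) (k := n + 3 + 1) (by omega) (by omega)
        t).up ((h.mem (by omega) t (by omega)).2 hyt) (mem_uc.1 hv2)
      exact (h.mem (by omega) t (by omega)).1 h1
    obtain ⟨b, b1, b2, rfl⟩ := W.surj (n + 2) (by omega) v (by omega) hvt
    obtain ⟨a, a1, a2, a3, rfl⟩ := (W.dc_iff h.g t.2 (k := n + 2) (by omega) b1 b2).1
      (mem_uc.1 hv1)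
    exact ⟨a, b, a1, a2, b1, b2, a3, rfl, hv2⟩
  have upp : ∀ w ∈ nUp (n + 2) p, ∃ a b, lo (n + 1) ≤ a ∧ a ≤ hi (n + 1) ∧ lo (n + 2) ≤ b ∧
      b ≤ hi (n + 2) ∧ (a = b ∨ a + 1 = b) ∧ w = e (n + 1) a ∧ e (n + 2) b ∈ uc y := by
    intro w hw
    rw [mem_nUp, D.sp, not_disjoint_iff] at hw
    obtain ⟨lw, v, hv1, hv2⟩ := hw
    have lv := lev_uc H hv2
    have hvt : v ≤ (t : P) := by
      have h1 : v ∈ SS (n + 2) t := (h.part (i := n + 2) (k := n + 3 + 1) (by omega) (by omega)
        t).up ((h.mem (by omega) t (by omega)).2 hyt) (mem_uc.1 hv2)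
      exact (h.mem (by omega) t (by omega)).1 h1
    obtain ⟨b, b1, b2, rfl⟩ := W.surj (n + 2) (by omega) v (by omega) hvt
    obtain ⟨a, a1, a2, a3, rfl⟩ := (W.uc_iff h.g t.2 (k := n + 1) (by omega) b1 b2).1
      (mem_dc.1 hv1)
    exact ⟨a, b, a1, a2, b1, b2, a3, rfl, hv2⟩
  have fup : ∀ w ∈ FU' (n + 2) (SS (n + 2) t), ∃ k, n = k + 1 ∧ ∃ a, lo k ≤ a ∧ a ≤ hi k ∧
      w = e k a ∧ dc (e k a) = {u} := by
    intro w hw
    rw [mem_FU'] at hw
    obtain ⟨hw1, z, hz1, hz2⟩ := hw
    have lz := (mem_PU.1 hz1).1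
    have hzw : z ⋖ w := by rw [← mem_dc, hz2]; simp
    have lw := lev_cov H hzw
    have hwt : w ≤ (t : P) := (h.mem (by omega) t (by omega)).1 hw1
    have hzS : z ∈ SS (n + 2) t := (h.mem (by omega) t (by omega)).2 (hzw.le.trans hwt)
    obtain rfl := D.upp z hzS hz1
    obtain ⟨k, rfl⟩ : ∃ k, n = k + 1 := ⟨n - 1, by omega⟩
    obtain ⟨a, a1, a2, rfl⟩ := W.surj k (by omega) w (by omega) hwt
    exact ⟨k, rfl, a, a1, a2, rfl, hz2⟩
  have r1 : lo (n + 2 + 1) = lo (n + 3) := rfl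
  have r2 : hi (n + 2 + 1) = hi (n + 3) := rfl
  rcases hcase with ⟨c1, c2, c3, c4, c5⟩ | ⟨c1, c2, c3, c4, c5⟩
  · -- the left end
    have hlo : lo (n + 3) = lo (n + 2) + 1 := by
      by_contra hne
      have l0 : lo (n + 3) = lo (n + 2) := by omega
      subst c4
      refine nat_two_nb H hn (y1 := e (n + 3) (lo (n + 2))) (y2 := e (n + 3) (lo (n + 2) + 2))
        (v1 := e (n + 2) (lo (n + 2))) (v2 := e (n + 2) (lo (n + 2) + 1)) ly
        (W.lev_x _ le_rfl _ (by omega) (by omega)) (W.lev_x _ le_rfl _ (by omega) (by omega)) hyt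
        (W.le_t _ le_rfl _ (by omega) (by omega)) (W.le_t _ le_rfl _ (by omega) (by omega))
        ?_ ?_ ?_ ?_ ?_ ?_ ?_ D.up
      · intro hq
        have := eqe _ _ _ le_rfl (by omega) (by omega) (by omega) (by omega) hq
        omega
      · intro hq
        have := eqe _ _ _ le_rfl (by omega) (by omega) (by omega) (by omega) hq
        omega
      · intro hq
        have := eqe _ _ _ le_rfl (by omega) (by omega) (by omega) (by omega) hq
        omega
      · rw [← mem_uc, c5]; simp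
      · exact (W.cov (n + 2) (by omega) _ _ (by omega) (by omega) le_rfl (by omega)).2 (Or.inl rfl)
      · rw [← mem_uc, c5]; simp
      · exact (W.cov (n + 2) (by omega) _ _ (by omega) (by omega) (by omega) (by omega)).2
          (Or.inr rfl)
    have bb : ∀ b, lo (n + 2) ≤ b → b ≤ hi (n + 2) → e (n + 2) b ∈ uc y →
        b = lo (n + 2) ∨ b = lo (n + 2) + 1 := by
      intro b b1 b2 hb'
      rw [c5, mem_insert, mem_singleton] at hb'
      rcases hb' with hb' | hb'
      · left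
        exact eqe _ _ _ (by omega) b1 b2 (by omega) (by omega) hb'
      · right
        exact eqe _ _ _ (by omega) b1 b2 (by omega) (by omega) hb'
    refine ⟨?_, ?_, ?_⟩
    · refine (card_le_card (t := {e (n + 3) (lo (n + 2) + 1), e (n + 3) (lo (n + 2) + 2)})
        fun w hw => ?_).trans card_le_two
      obtain ⟨a, b, a1, a2, b1, b2, b3, rfl, b4⟩ := low w hw
      have b5 := bb b b1 b2 b4
      rw [mem_insert, mem_singleton]
      rcases (show a = lo (n + 2) + 1 ∨ a = lo (n + 2) + 2 by omega) with h1 | h1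
      · left; rw [h1]
      · right; rw [h1]
    · refine (card_le_card (t := {e (n + 1) (lo (n + 2)), e (n + 1) (lo (n + 2) + 1)})
        fun w hw => ?_).trans card_le_two
      obtain ⟨a, b, a1, a2, b1, b2, b3, rfl, b4⟩ := upp w hw
      have b5 := bb b b1 b2 b4
      rw [mem_insert, mem_singleton]
      rcases (show a = lo (n + 2) ∨ a = lo (n + 2) + 1 by omega) with h1 | h1
      · left; rw [h1]
      · right; rw [h1]
    · rw [card_le_one]
      intro w hw w' hw'
      obtain ⟨k, hk, a, a1, a2, rfl, a3⟩ := fup w hw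
      subst hk
      obtain ⟨k', hk', a', a1', a2', rfl, a3'⟩ := fup w' hw'
      obtain rfl : k' = k := by omega
      have key : ∀ a, lo k' ≤ a → a ≤ hi k' → dc (e k' a) = {u} → a + 1 = lo (k' + 1) := by
        intro a a1 a2 a3
        have h1 : u ⋖ e k' a := by rw [← mem_dc, a3]; simp
        obtain ⟨b, b1, b2, b3, b4⟩ := (W.dc_iff h.g t.2 (k := k') (by omega) a1 a2).1 h1
        rw [c3] at b4
        have b5 := eqe _ _ _ (by omega) b1 b2 (by omega) (by omega) b4
        by_contra hne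
        have h2 : e (k' + 1) (a + 1) ⋖ e k' a :=
          (W.cov k' (by omega) _ _ (by omega) (by omega) a1 a2).2 (Or.inr rfl)
        rw [← mem_dc, a3, mem_singleton, c3] at h2
        have := eqe _ _ _ (by omega) (by omega) (by omega) (by omega) (by omega) h2
        omega
      have q1 := key a a1 a2 a3
      have q2 := key a' a1' a2' a3'
      rw [show a = a' by omega]
  · -- the right end
    have hhi : hi (n + 3) = hi (n + 2) := by
      by_contra hne
      have l0 : hi (n + 3) = hi (n + 2) + 1 := by omega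
      subst c4
      refine nat_two_nb H hn (y1 := e (n + 3) (hi (n + 2) - 1)) (y2 := e (n + 3) (hi (n + 2) + 1))
        (v1 := e (n + 2) (hi (n + 2) - 1)) (v2 := e (n + 2) (hi (n + 2))) ly
        (W.lev_x _ le_rfl _ (by omega) (by omega)) (W.lev_x _ le_rfl _ (by omega) (by omega)) hyt
        (W.le_t _ le_rfl _ (by omega) (by omega)) (W.le_t _ le_rfl _ (by omega) (by omega))
        ?_ ?_ ?_ ?_ ?_ ?_ ?_ D.up
      · intro hq
        have := eqe _ _ _ le_rfl (by omega) (by omega) (by omega) (by omega) hq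
        omega
      · intro hq
        have := eqe _ _ _ le_rfl (by omega) (by omega) (by omega) (by omega) hq
        omega
      · intro hq
        have := eqe _ _ _ le_rfl (by omega) (by omega) (by omega) (by omega) hq
        omega
      · rw [← mem_uc, c5]; simp
      · exact (W.cov (n + 2) (by omega) _ _ (by omega) (by omega) (by omega) (by omega)).2
          (Or.inl rfl)
      · rw [← mem_uc, c5]; simp
      · exact (W.cov (n + 2) (by omega) _ _ (by omega) (by omega) (by omega) (by omega)).2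
          (Or.inr rfl)
    have bb : ∀ b, lo (n + 2) ≤ b → b ≤ hi (n + 2) → e (n + 2) b ∈ uc y →
        b + 1 = hi (n + 2) ∨ b = hi (n + 2) := by
      intro b b1 b2 hb'
      rw [c5, mem_insert, mem_singleton] at hb'
      rcases hb' with hb' | hb'
      · left
        have := eqe _ _ _ (by omega) b1 b2 (by omega) (by omega) hb'
        omega
      · right
        exact eqe _ _ _ (by omega) b1 b2 (by omega) (by omega) hb'
    refine ⟨?_, ?_, ?_⟩
    · refine (card_le_card (t := {e (n + 3) (hi (n + 2) - 1), e (n + 3) (hi (n + 2))})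
        fun w hw => ?_).trans card_le_two
      obtain ⟨a, b, a1, a2, b1, b2, b3, rfl, b4⟩ := low w hw
      have b5 := bb b b1 b2 b4
      rw [mem_insert, mem_singleton]
      rcases (show a = hi (n + 2) - 1 ∨ a = hi (n + 2) by omega) with h1 | h1
      · left; rw [h1]
      · right; rw [h1]
    · refine (card_le_card (t := {e (n + 1) (hi (n + 2) - 1), e (n + 1) (hi (n + 2) - 2)})
        fun w hw => ?_).trans card_le_two
      obtain ⟨a, b, a1, a2, b1, b2, b3, rfl, b4⟩ := upp w hw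
      have b5 := bb b b1 b2 b4
      rw [mem_insert, mem_singleton]
      rcases (show a = hi (n + 2) - 1 ∨ a = hi (n + 2) - 2 by omega) with h1 | h1
      · left; rw [h1]
      · right; rw [h1]
    · rw [card_le_one]
      intro w hw w' hw'
      obtain ⟨k, hk, a, a1, a2, rfl, a3⟩ := fup w hw
      subst hk
      obtain ⟨k', hk', a', a1', a2', rfl, a3'⟩ := fup w' hw'
      obtain rfl : k' = k := by omega
      have key : ∀ a, lo k' ≤ a → a ≤ hi k' → dc (e k' a) = {u} → a = hi (k' + 1) := by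
        intro a a1 a2 a3
        have h1 : u ⋖ e k' a := by rw [← mem_dc, a3]; simp
        obtain ⟨b, b1, b2, b3, b4⟩ := (W.dc_iff h.g t.2 (k := k') (by omega) a1 a2).1 h1
        rw [c3] at b4
        have b5 := eqe _ _ _ (by omega) b1 b2 (by omega) (by omega) b4
        by_contra hne
        have h2 : e (k' + 1) a ⋖ e k' a :=
          (W.cov k' (by omega) _ _ (by omega) (by omega) a1 a2).2 (Or.inl rfl)
        rw [← mem_dc, a3, mem_singleton, c3] at h2
        have := eqe _ _ _ (by omega) (by omega) (by omega) (by omega) (by omega) h2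
        omega
      have q1 := key a a1 a2 a3
      have q2 := key a' a1' a2' a3'
      rw [show a = a' by omega]

end Pool.Agent.GaussPoset.Wd
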